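import Pool.Agent.Helper89.Vol.Goals

/-! # MP_cd13d2_co, project V36: packet V36-JB (the planar inequality, second case) -/

set_option autoImplicit false

namespace Pool.Agent.Helper57.Vol.PkJB

open Pool.Agent.Helper89.Vol

theorem thm : G_JB := by
  intro N k M g1 g2 S hN0 hN1 hk hM hg1 hg2 hS h1 h2 h3 h4
  obtain ⟨r, hr⟩ : ∃ r, r = √(3 : ℝ) := ⟨_, rfl⟩
  rw [← hr] at h4
  have hr0 : 0 ≤ r := hr ▸ Real.sqrt_nonneg _
  have hr2 : r ^ 2 = 3 := by rw [hr]; exact Real.sq_sqrt (by norm_num)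
  have hrh : r ≤ 1.7321 := by nlinarith
  obtain ⟨G, hG⟩ : ∃ G, G = √(g1 ^ 2 + g2 ^ 2) := ⟨_, rfl⟩
  have hG0 : 0 ≤ G := hG ▸ Real.sqrt_nonneg _
  have hG2 : G ^ 2 = g1 ^ 2 + g2 ^ 2 := by rw [hG]; exact Real.sq_sqrt (by positivity)
  have hG1 : G ≤ 1 := by nlinarith
  -- Cauchy-Schwarz
  have cs : (k + N) * g2 + M * g1 ≤ 1 / 2 * (r * G) := by
    have e : ((k + N) * g2 + M * g1) ^ 2 ≤ (1 / 2 * (r * G)) ^ 2 := by
      have e1 : (1 / 2 * (r * G)) ^ 2 = 3 / 4 * (g1 ^ 2 + g2 ^ 2) := by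
        rw [mul_pow, mul_pow, hr2, hG2]; ring
      have e2 : ((k + N) * g2 + M * g1) ^ 2 + ((k + N) * g1 - M * g2) ^ 2 =
          ((k + N) ^ 2 + M ^ 2) * (g1 ^ 2 + g2 ^ 2) := by ring
      have e3 := mul_le_mul_of_nonneg_right h1 (by positivity : 0 ≤ g1 ^ 2 + g2 ^ 2)
      rw [e1]
      linarith [sq_nonneg ((k + N) * g1 - M * g2)]
    exact le_of_abs_le (abs_le_of_sq_le_sq e (by positivity))
  have hS' : S ≤ 5 / 13 * (5.69 - G ^ 2 - 4 * N ^ 2 - 4 * N * g1) := by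
    rw [hG2]
    linarith [sq_nonneg (S - 1.3)]
  have hNS := mul_le_mul_of_nonneg_left hS' hN0
  have ha : 0 ≤ N * g1 := mul_nonneg hN0 hg1
  have hg : 1.1546 * (N * g1) ≤ g2 := by
    have := mul_le_mul_of_nonneg_right hrh hg2
    linarith
  have hrG := mul_le_mul_of_nonneg_right hrh hG0
  have hNG : 0 ≤ N * (1 - G) := mul_nonneg hN0 (by linarith)
  rcases le_total N (5 / 12) with hN | hN
  · have hNN : N ^ 2 ≤ 25 / 144 := by
      have := mul_nonneg (by linarith : 0 ≤ 5 / 12 - N) (by linarith : 0 ≤ 5 / 12 + N)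
      linarith
    have hq : 2.4 * N * G ≤ g2 + 20 / 13 * (N * g1) := by
      have e : (2.4 * N * G) ^ 2 ≤ (g2 + 20 / 13 * (N * g1)) ^ 2 := by
        have e1 : (g2 + 20 / 13 * (N * g1)) ^ 2 - (2.4 * N * G) ^ 2 =
            (1 - 5.76 * N ^ 2) * g2 ^ 2 + 40 / 13 * ((N * g1) * (g2 - 1.1546 * (N * g1))) +
              (40 / 13 * 1.1546 + 400 / 169 - 5.76) * (N * g1) ^ 2 := by
          rw [mul_pow (2.4 * N), hG2]; ring
        have e2 : 0 ≤ (1 - 5.76 * N ^ 2) * g2 ^ 2 :=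
          mul_nonneg (by linarith) (sq_nonneg _)
        have e3 : 0 ≤ (N * g1) * (g2 - 1.1546 * (N * g1)) := mul_nonneg ha (by linarith)
        have e4 : 0 ≤ (40 / 13 * 1.1546 + 400 / 169 - 5.76) * (N * g1) ^ 2 :=
          mul_nonneg (by norm_num) (sq_nonneg (N * g1))
        linarith only [e1, e2, e3, e4]
      exact le_of_abs_le (abs_le_of_sq_le_sq e (by positivity))
    have hNq := mul_le_mul_of_nonneg_left hq hN0
    have c1 : 0 ≤ (1 - G) * (0.86605 - 2.4 * N ^ 2 - 5 / 13 * N * (1 + G)) :=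
      mul_nonneg (by linarith) (by linarith)
    have c2 := mul_nonneg (by linarith : 0 ≤ N + 0.6) (sq_nonneg (N - 0.3))
    have c3 := sq_nonneg (N - 0.3)
    linarith only [cs, hNS, hNq, hrG, c1, c2, c3, hN0]
  · have hNN : 25 / 144 ≤ N ^ 2 := by
      have := mul_nonneg (by linarith : 0 ≤ N - 5 / 12) (by linarith : 0 ≤ 5 / 12 + N)
      linarith
    have hq : G ≤ g2 + 20 / 13 * (N * g1) := by
      have e : G ^ 2 ≤ (g2 + 20 / 13 * (N * g1)) ^ 2 := by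
        have e1 : (g2 + 20 / 13 * (N * g1)) ^ 2 - G ^ 2 =
            g1 * (40 / 13 * (N * (g2 - 1.1546 * (N * g1)))) +
              (40 / 13 * 1.1546 * N ^ 2 + 400 / 169 * N ^ 2 - 1) * g1 ^ 2 := by
          rw [hG2]; ring
        have e2 : 0 ≤ g1 * (40 / 13 * (N * (g2 - 1.1546 * (N * g1)))) :=
          mul_nonneg hg1 (mul_nonneg (by norm_num) (mul_nonneg hN0 (by linarith)))
        have e3 : 0 ≤ (40 / 13 * 1.1546 * N ^ 2 + 400 / 169 * N ^ 2 - 1) * g1 ^ 2 :=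
          mul_nonneg (by linarith) (sq_nonneg _)
        linarith only [e1, e2, e3]
      exact le_of_abs_le (abs_le_of_sq_le_sq e (by positivity))
    have hNq := mul_le_mul_of_nonneg_left hq hN0
    have c1 := mul_nonneg hN0 (sq_nonneg (G - 1))
    have c2 : 0 ≤ (1 - G) * (1 / 2 - N) := mul_nonneg (by linarith) (by linarith)
    have c3 : 0 ≤ G * (1 / 2 - N) := mul_nonneg hG0 (by linarith)
    have c5 : 0 ≤ G * (N - 5 / 12) := mul_nonneg hG0 (by linarith)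
    have c6 : 0 ≤ (1 - G) * (N - 5 / 12) := mul_nonneg (by linarith) (by linarith)
    have c8 := mul_nonneg (by linarith : 0 ≤ N + 0.9) (sq_nonneg (N - 0.45))
    linarith only [cs, hNS, hNq, hrG, c1, c2, c3, c5, c6, c8]

end Pool.Agent.Helper57.Vol.PkJB
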